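import Mathlib
import Pool.Agent.Lib.MP_3b72de_co.Tile

namespace Pool.Agent.Results.MP_3b72de_co.LogConcave

open Pool.Agent.Lib.MP_3b72de_co

theorem result (n k : ℕ) (hk : 2 ≤ k) (hn : k ≤ 2 * n - 2) :
    (O (2 * n - 1) (k - 1)).ncard * (O (2 * n - 1) (k + 1)).ncard ≤ (O (2 * n - 1) k).ncard ^ 2 := by
  obtain ⟨a, rfl⟩ : ∃ a, k = a + 2 := ⟨k - 2, by omega⟩
  obtain ⟨b, hb⟩ : ∃ b, a + 2 + b = 2 * (n - 1) := ⟨2 * n - 2 - (a + 2), by omega⟩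
  have h := psi_lc (n - 1) a b hb
  have h0 := ncard_O a (b + 2)
  have h1 := ncard_O (a + 1) (b + 1)
  have h2 := ncard_O (a + 2) b
  rw [show a + (b + 2) + 1 = 2 * (n - 1) + 1 by omega] at h0
  rw [show a + 1 + (b + 1) + 1 = 2 * (n - 1) + 1 by omega] at h1
  rw [show a + 2 + b + 1 = 2 * (n - 1) + 1 by omega] at h2
  rw [← h0, ← h1, ← h2, show 2 * (n - 1) + 1 = 2 * n - 1 by omega] at h
  exact_mod_cast h

end Pool.Agent.Results.MP_3b72de_co.LogConcave
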